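import Pool.Agent.K1H77.CG.Stm

/-! Piece CG9 (helper39 for helper77): the second moment of the number of cycles of a given length,
and the existence of cycles. -/

set_option autoImplicit false

open Finset Filter Topology

namespace Pool.Agent.K1H39.CG

open Pool.Agent.K1H77.CG

open Classical in
/-- pairs of cycles -/
theorem card_sq (h2 : S_SAME) {k n : ℕ} (M : Equiv.Perm (HE n)) (hM : IsMat M) :
    (cycs k M).card ^ 2 ≤ ((cycs k M ×ˢ cycs k M).filter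
      (fun p => ∀ i j, p.1.1 i ≠ p.2.1 j)).card +
      ((cycs k M ×ˢ cycs k M).filter
      (fun p => (∃ i j, p.1.1 i = p.2.1 j) ∧ ∃ i, (p.2.1 i, p.2.2.2 i) ∉ FE p.1)).card +
      2 * (k + 1) * (cycs k M).card := by
  have e1 : (cycs k M).card ^ 2 = (cycs k M ×ˢ cycs k M).card := by
    rw [Finset.card_product, sq]
  have e2 : cycs k M ×ˢ cycs k M ⊆ ((cycs k M ×ˢ cycs k M).filter
      (fun p => ∀ i j, p.1.1 i ≠ p.2.1 j)) ∪ ((cycs k M ×ˢ cycs k M).filter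
      (fun p => (∃ i j, p.1.1 i = p.2.1 j) ∧ ∃ i, (p.2.1 i, p.2.2.2 i) ∉ FE p.1)) ∪
      ((cycs k M ×ˢ cycs k M).filter (fun p => ∀ i, (p.2.1 i, p.2.2.2 i) ∈ FE p.1)) := by
    intro p hp
    rw [mem_union, mem_union, mem_filter, mem_filter, mem_filter]
    by_cases c1 : ∀ i j, p.1.1 i ≠ p.2.1 j
    · exact Or.inl (Or.inl ⟨hp, c1⟩)
    · by_cases c2 : ∀ i, (p.2.1 i, p.2.2.2 i) ∈ FE p.1
      · exact Or.inr ⟨hp, c2⟩
      · refine Or.inl (Or.inr ⟨hp, ?_, ?_⟩)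
        · push Not at c1
          exact c1
        · push Not at c2
          exact c2
  have e3 : ((cycs k M ×ˢ cycs k M).filter (fun p => ∀ i, (p.2.1 i, p.2.2.2 i) ∈ FE p.1)).card ≤
      2 * (k + 1) * (cycs k M).card := by
    rw [Finset.card_filter, Finset.sum_product]
    calc ∑ x ∈ cycs k M, ∑ y ∈ cycs k M,
          (if ∀ i, ((x, y).2.1 i, (x, y).2.2.2 i) ∈ FE (x, y).1 then 1 else 0)
        ≤ ∑ x ∈ cycs k M, 2 * (k + 1) := by
          refine Finset.sum_le_sum fun c hc => ?_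
          rw [← Finset.card_filter]
          exact h2 k n M hM c hc
      _ = 2 * (k + 1) * (cycs k M).card := by
          rw [Finset.sum_const, smul_eq_mul, mul_comm]
  rw [e1]
  refine (Finset.card_le_card e2).trans ?_
  refine (Finset.card_union_le _ _).trans ?_
  exact add_le_add (Finset.card_union_le _ _) e3

theorem t_CYC2 (h1 : S_DISJ) (h2 : S_SAME) (h3 : S_INT) (h4 : S_CYC1) (h5 : S_FMA) : S_CYC2 := by
  classical
  intro k ε hε
  obtain ⟨C, hC⟩ := h3 k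
  have hF : ∀ m : ℕ, (0 : ℝ) < fm (6 * m) := by
    intro m
    have h := fm_pos (3 * m)
    have e : 2 * (3 * m) = 6 * m := by ring
    rw [e] at h
    exact_mod_cast h
  -- the three limits
  have t1 : ∀ᶠ m : ℕ in atTop, (fm (6 * m - 2 * (2 * (k + 1))) : ℝ) *
      (6 * m : ℝ) ^ (2 * (k + 1)) / fm (6 * m) < 1 + ε / (3 * 4 ^ (k + 1)) :=
    (h5 (2 * (k + 1))).eventually_lt_const (by
      have : (0 : ℝ) < ε / (3 * 4 ^ (k + 1)) := by positivity
      linarith)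
  have t2 : ∀ᶠ m : ℕ in atTop, C / (m : ℝ) < ε / 3 := by
    have h : Tendsto (fun m : ℕ => C / (m : ℝ)) atTop (𝓝 0) := tendsto_const_div_atTop_nhds_zero_nat C
    exact h.eventually_lt_const (by positivity)
  have t3 : ∀ᶠ m : ℕ in atTop, (∑ M ∈ Mat (HE (2 * m)), ((cycs k M).card : ℝ)) / fm (6 * m) <
      2 ^ (k + 1) + ε / (3 * (2 * (k + 1))) :=
    (h4 k).eventually_lt_const (by
      have : (0 : ℝ) < ε / (3 * (2 * (k + 1))) := by positivity
      linarith)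
  filter_upwards [t1, t2, t3, eventually_ge_atTop 1] with m u1 u2 u3 hm
  have hFm := hF m
  -- pointwise
  have p1 : ∑ M ∈ Mat (HE (2 * m)), ((cycs k M).card : ℝ) ^ 2 ≤
      ((∑ M ∈ Mat (HE (2 * m)), ((cycs k M ×ˢ cycs k M).filter
        (fun p => ∀ i j, p.1.1 i ≠ p.2.1 j)).card : ℕ) : ℝ) +
      (∑ M ∈ Mat (HE (2 * m)), (((cycs k M ×ˢ cycs k M).filter
      (fun p => (∃ i j, p.1.1 i = p.2.1 j) ∧ ∃ i, (p.2.1 i, p.2.2.2 i) ∉ FE p.1)).card : ℝ)) +
      2 * (k + 1) * ∑ M ∈ Mat (HE (2 * m)), ((cycs k M).card : ℝ) := by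
    rw [Nat.cast_sum, Finset.mul_sum, ← Finset.sum_add_distrib, ← Finset.sum_add_distrib]
    refine Finset.sum_le_sum fun M hM => ?_
    have h := card_sq h2 (k := k) M (mem_Mat.1 hM)
    exact_mod_cast h
  have q1 : ((∑ M ∈ Mat (HE (2 * m)), ((cycs k M ×ˢ cycs k M).filter
        (fun p => ∀ i j, p.1.1 i ≠ p.2.1 j)).card : ℕ) : ℝ) ≤
      (4 ^ (k + 1) + ε / 3) * fm (6 * m) := by
    have h : (∑ M ∈ Mat (HE (2 * m)), ((cycs k M ×ˢ cycs k M).filter
        (fun p => ∀ i j, p.1.1 i ≠ p.2.1 j)).card : ℕ) ≤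
        (2 * m) ^ (2 * (k + 1)) * 36 ^ (k + 1) * fm (6 * m - 2 * (2 * (k + 1))) := by
      refine (h1 k (2 * m)).trans ?_
      have e : 3 * (2 * m) - 4 * (k + 1) = 6 * m - 2 * (2 * (k + 1)) := by omega
      rw [e]
      exact Nat.mul_le_mul_right _ (Nat.mul_le_mul_right _ (Nat.descFactorial_le_pow _ _))
    have h' : ((∑ M ∈ Mat (HE (2 * m)), ((cycs k M ×ˢ cycs k M).filter
        (fun p => ∀ i j, p.1.1 i ≠ p.2.1 j)).card : ℕ) : ℝ) ≤
        (2 * (m : ℝ)) ^ (2 * (k + 1)) * 36 ^ (k + 1) * fm (6 * m - 2 * (2 * (k + 1))) := by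
      exact_mod_cast h
    refine h'.trans ?_
    have e2 : (2 * (m : ℝ)) ^ (2 * (k + 1)) * 36 ^ (k + 1) * fm (6 * m - 2 * (2 * (k + 1))) =
        4 ^ (k + 1) * ((fm (6 * m - 2 * (2 * (k + 1))) : ℝ) * (6 * m : ℝ) ^ (2 * (k + 1))) := by
      have e3 : (6 * m : ℝ) ^ (2 * (k + 1)) = 9 ^ (k + 1) * (2 * (m : ℝ)) ^ (2 * (k + 1)) := by
        have e4 : (6 * m : ℝ) = 3 * (2 * m) := by ring
        rw [e4, mul_pow, pow_mul 3]
        norm_num
      have e5 : (36 : ℝ) ^ (k + 1) = 4 ^ (k + 1) * 9 ^ (k + 1) := by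
        rw [← mul_pow]
        norm_num
      rw [e3, e5]
      ring
    rw [e2]
    rw [div_lt_iff₀ hFm] at u1
    have h4p : (0 : ℝ) < 4 ^ (k + 1) := by positivity
    calc 4 ^ (k + 1) * ((fm (6 * m - 2 * (2 * (k + 1))) : ℝ) * (6 * m : ℝ) ^ (2 * (k + 1)))
        ≤ 4 ^ (k + 1) * ((1 + ε / (3 * 4 ^ (k + 1))) * fm (6 * m)) :=
          mul_le_mul_of_nonneg_left u1.le h4p.le
      _ = (4 ^ (k + 1) + ε / 3) * fm (6 * m) := by
          field_simp
  have q2 := hC m hm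
  have q2' : C / (m : ℝ) * fm (6 * m) ≤ ε / 3 * fm (6 * m) :=
    mul_le_mul_of_nonneg_right u2.le hFm.le
  have q3 : 2 * ((k : ℝ) + 1) * ∑ M ∈ Mat (HE (2 * m)), ((cycs k M).card : ℝ) ≤
      (2 * (k + 1) * 2 ^ (k + 1) + ε / 3) * fm (6 * m) := by
    rw [div_lt_iff₀ hFm] at u3
    have hk : (0 : ℝ) < 2 * ((k : ℝ) + 1) := by positivity
    calc 2 * ((k : ℝ) + 1) * ∑ M ∈ Mat (HE (2 * m)), ((cycs k M).card : ℝ)
        ≤ 2 * ((k : ℝ) + 1) * ((2 ^ (k + 1) + ε / (3 * (2 * (k + 1)))) * fm (6 * m)) :=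
          mul_le_mul_of_nonneg_left u3.le hk.le
      _ = (2 * (k + 1) * 2 ^ (k + 1) + ε / 3) * fm (6 * m) := by
          field_simp
  refine p1.trans ?_
  have := add_le_add (add_le_add q1 (q2.trans q2')) q3
  refine this.trans (le_of_eq ?_)
  ring

open Classical in
theorem t_EX (h0 : S_CARD) (h1 : S_CYC1) (h2 : S_CYC2) : S_EX := by
  intro k ε hε
  have hF : ∀ m : ℕ, (0 : ℝ) < fm (6 * m) := by
    intro m
    have h := fm_pos (3 * m)
    have e : 2 * (3 * m) = 6 * m := by ring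
    rw [e] at h
    exact_mod_cast h
  have hμ : (1 : ℝ) ≤ 2 ^ (k + 1) := one_le_pow₀ (by norm_num)
  have t1 : ∀ᶠ m : ℕ in atTop, ((2 : ℝ) ^ (k + 1)) ^ 2 - ε / 2 <
      ((∑ M ∈ Mat (HE (2 * m)), ((cycs k M).card : ℝ)) / fm (6 * m)) ^ 2 :=
    ((h1 k).pow 2).eventually_const_lt (by linarith)
  filter_upwards [t1, h2 k (ε / 2) (by positivity)] with m u1 u2
  have hFm := hF m
  set F : ℝ := ((fm (6 * m) : ℕ) : ℝ) with hFdef
  set X : ℝ := ∑ M ∈ Mat (HE (2 * m)), ((cycs k M).card : ℝ) with hX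
  set Y : ℝ := ∑ M ∈ Mat (HE (2 * m)), ((cycs k M).card : ℝ) ^ 2 with hY
  set a : ℝ := (((Mat (HE (2 * m))).filter (fun M => cycs k M = ∅)).card : ℝ) with ha
  have hcard : ((Mat (HE (2 * m))).card : ℝ) = F := by
    rw [h0, hFdef]
    congr 2
    rw [Fintype.card_prod, Fintype.card_fin, Fintype.card_fin]
    ring
  have hsplit : a + (((Mat (HE (2 * m))).filter (fun M => ¬ cycs k M = ∅)).card : ℝ) = F := by
    rw [ha, ← hcard]
    exact_mod_cast Finset.card_filter_add_card_filter_not (s := Mat (HE (2 * m)))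
      (fun M => cycs k M = ∅)
  have ha0 : 0 ≤ a := by rw [ha]; positivity
  have hCS : X ^ 2 ≤ (F - a) * Y := by
    have e1 : X = ∑ M ∈ (Mat (HE (2 * m))).filter (fun M => ¬ cycs k M = ∅),
        1 * ((cycs k M).card : ℝ) := by
      rw [hX, Finset.sum_filter]
      refine Finset.sum_congr rfl fun M _ => ?_
      by_cases h : cycs k M = ∅
      · rw [if_neg (not_not.2 h), h]
        simp
      · rw [if_pos h, one_mul]
    have e2 := Finset.sum_mul_sq_le_sq_mul_sq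
      ((Mat (HE (2 * m))).filter (fun M => ¬ cycs k M = ∅)) (fun _ => (1 : ℝ))
      (fun M => ((cycs k M).card : ℝ))
    rw [← e1] at e2
    refine e2.trans ?_
    have e3 : ∑ M ∈ (Mat (HE (2 * m))).filter (fun M => ¬ cycs k M = ∅), (1 : ℝ) ^ 2 = F - a := by
      rw [one_pow, Finset.sum_const, nsmul_eq_mul, mul_one]
      linarith
    rw [e3]
    have hFa : 0 ≤ F - a := by
      have : (0 : ℝ) ≤ (((Mat (HE (2 * m))).filter (fun M => ¬ cycs k M = ∅)).card : ℝ) := by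
        positivity
      linarith
    refine mul_le_mul_of_nonneg_left ?_ hFa
    rw [hY]
    exact Finset.sum_le_sum_of_subset_of_nonneg (Finset.filter_subset _ _)
      fun M _ _ => sq_nonneg _
  have hFa : 0 ≤ F - a := by
    have : (0 : ℝ) ≤ (((Mat (HE (2 * m))).filter (fun M => ¬ cycs k M = ∅)).card : ℝ) := by
      positivity
    linarith
  -- X^2 ≤ (F - a) (μ^2 + c μ + ε/2) F
  have h3 : X ^ 2 ≤ (F - a) * ((4 ^ (k + 1) + 2 * (k + 1) * 2 ^ (k + 1) + ε / 2) * F) :=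
    hCS.trans (mul_le_mul_of_nonneg_left u2 hFa)
  rw [div_pow, lt_div_iff₀ (by positivity)] at u1
  set μ : ℝ := 2 ^ (k + 1) with hμdef
  have e4 : (4 : ℝ) ^ (k + 1) = μ ^ 2 := by
    rw [hμdef, ← pow_mul, mul_comm, pow_mul]
    norm_num
  rw [e4] at h3
  set c : ℝ := 2 * ((k : ℝ) + 1) with hc
  have hc0 : 0 ≤ c := by rw [hc]; positivity
  have h5 : (μ ^ 2 - ε / 2) * F ^ 2 < (F - a) * ((μ ^ 2 + c * μ + ε / 2) * F) :=
    lt_of_lt_of_le u1 h3
  have h6 : (μ ^ 2 - ε / 2) * F < (F - a) * (μ ^ 2 + c * μ + ε / 2) := by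
    have e : (μ ^ 2 - ε / 2) * F ^ 2 = ((μ ^ 2 - ε / 2) * F) * F := by ring
    have e' : (F - a) * ((μ ^ 2 + c * μ + ε / 2) * F) =
        ((F - a) * (μ ^ 2 + c * μ + ε / 2)) * F := by ring
    rw [e, e'] at h5
    exact lt_of_mul_lt_mul_right h5 hFm.le
  have hμ0 : 0 < μ := lt_of_lt_of_le one_pos hμ
  have h7 : a * μ ^ 2 ≤ (c * μ + ε) * F := by
    have h8 : 0 ≤ a * (c * μ + ε / 2) := by positivity
    nlinarith
  have h9 : (c / μ + ε) * F = ((c * μ + ε * μ ^ 2) * F) / μ ^ 2 := by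
    field_simp
  rw [h9, le_div_iff₀ (by positivity)]
  refine h7.trans ?_
  refine mul_le_mul_of_nonneg_right ?_ hFm.le
  have : ε ≤ ε * μ ^ 2 := le_mul_of_one_le_right hε.le (one_le_pow₀ hμ)
  linarith

end Pool.Agent.K1H39.CG
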